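import Pool.Agent.KS6_40.QM.Max2

/-!
# Computable decompositions of the natural numbers
-/

set_option autoImplicit false

namespace Pool.Agent.KS6_40.QM

open Pool.Agent.Helper446 Pool.Agent.Helper446.RE Pool.Agent.Helper446.EL

/-- total choice from an r.e. relation -/
theorem choose_total {R : ℕ → ℕ → Prop} (hR : REPred fun x : ℕ × ℕ => R x.1 x.2)
    (h : ∀ a, ∃ b, R a b) : ∃ f : ℕ → ℕ, Computable f ∧ ∀ a, R a (f a) := by
  obtain ⟨f, hf, h1, h2⟩ := uniformize hR
  have hdom : ∀ a, (f a).Dom := fun a => (h1 a).2 (h a)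
  refine ⟨fun a => (f a).get (hdom a), ?_, fun a => h2 a _ (Part.get_mem _)⟩
  refine (Partrec.of_eq hf fun a => ?_)
  exact (Part.some_get (hdom a)).symm

/-- iteration of a computable function -/
theorem computable_iter {s : ℕ → ℕ} (hs : Computable s) (b : ℕ) :
    Computable fun n : ℕ => s^[n] b := by
  have h := Computable.nat_rec (f := fun x : ℕ => x) (g := fun _ => b)
    (h := fun (_ : ℕ) (y : ℕ × ℕ) => s y.2) (by fun_prop) (by fun_prop) (by
      unfold Computable₂
      exact hs.comp (by fun_prop))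
  refine h.of_eq fun n => ?_
  induction n with
  | zero => rfl
  | succ n ih =>
    rw [Function.iterate_succ_apply', ← ih]

theorem strictMono_iter {s : ℕ → ℕ} (hs : ∀ n, n < s n) (b : ℕ) :
    StrictMono fun n : ℕ => s^[n] b := by
  refine strictMono_nat_of_lt_succ fun n => ?_
  rw [Function.iterate_succ_apply']
  exact hs _

/-- An infinite r.e. set has an infinite computable subset, increasingly enumerated. -/
theorem exists_sub {X : Set ℕ} (hX : Re X) (hinf : X.Infinite) :
    ∃ t : ℕ → ℕ, Computable t ∧ StrictMono t ∧ Set.range t ⊆ X := by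
  have h1 : REPred fun x : ℕ × ℕ => x.2 ∈ X ∧ x.1 < x.2 := by
    refine RE.and ?_ (RE.lt (by fun_prop) (by fun_prop))
    exact RE.comp (p := fun x : ℕ => x ∈ X) hX (f := fun x : ℕ × ℕ => x.2) (by fun_prop)
  obtain ⟨s, hs, h2⟩ := choose_total (R := fun a b => b ∈ X ∧ a < b) h1
    (fun a => by
      obtain ⟨b, hb, hab⟩ := hinf.exists_gt a
      exact ⟨b, hb, hab⟩)
  refine ⟨fun n => s^[n] (s 0), computable_iter hs _, strictMono_iter (fun n => (h2 n).2) _, ?_⟩
  rintro - ⟨n, rfl⟩
  show s^[n] (s 0) ∈ X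
  cases n with
  | zero => exact (h2 0).1
  | succ n =>
    rw [Function.iterate_succ_apply']
    exact (h2 _).1

/-- The range of an increasing computable function is computable. -/
theorem rec_range {t : ℕ → ℕ} (ht : Computable t) (hm : StrictMono t) : Rec (Set.range t) := by
  refine rec_of_re ?_ ?_
  · unfold Re
    refine (RE.exN (p := fun (x : ℕ) k => t k = x) (RE.eq (ht.comp (by fun_prop))
      (by fun_prop))).of_eq fun x => Iff.rfl
  · unfold Re
    have h : REPred fun x : ℕ => ∀ k < x + 1, t k ≠ x :=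
      RE.all_lt (p := fun (x : ℕ) k => t k ≠ x) (RE.ne (ht.comp (by fun_prop)) (by fun_prop))
        (f := fun x => x + 1) (by fun_prop)
    refine h.of_eq fun x => ?_
    constructor
    · rintro h ⟨k, rfl⟩
      exact h k (by have := hm.le_apply (x := k); omega) rfl
    · intro h k _ hk
      exact h ⟨k, hk⟩

/-- An infinite computable set is increasingly enumerated by a computable function. -/
theorem exists_enumeration {Y : Set ℕ} (hY : Rec Y) (hinf : Y.Infinite) :
    ∃ r : ℕ → ℕ, Computable r ∧ StrictMono r ∧ Set.range r = Y := by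
  have hYc : Re Yᶜ := hY.compl.re
  have h1 : REPred fun x : ℕ × ℕ => (x.2 ∈ Y ∧ x.1 < x.2) ∧ ∀ z < x.2, z ∈ Yᶜ ∨ z < x.1 + 1 := by
    refine RE.and (RE.and ?_ (RE.lt (by fun_prop) (by fun_prop))) ?_
    · exact RE.comp (p := fun x : ℕ => x ∈ Y) hY.re (f := fun x : ℕ × ℕ => x.2) (by fun_prop)
    · refine RE.all_lt (p := fun (x : ℕ × ℕ) z => z ∈ Yᶜ ∨ z < x.1 + 1) (RE.or ?_ ?_)
        (f := fun x => x.2) (by fun_prop)
      · exact RE.comp (p := fun x : ℕ => x ∈ Yᶜ) hYc (f := fun x : (ℕ × ℕ) × ℕ => x.2)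
          (by fun_prop)
      · exact RE.lt (by fun_prop) (by fun_prop)
  have hleast : ∀ a, ∃ b, (b ∈ Y ∧ a < b) ∧ ∀ z < b, z ∈ Yᶜ ∨ z < a + 1 := by
    intro a
    classical
    have hex : ∃ b, b ∈ Y ∧ a < b := by
      obtain ⟨b, hb, hab⟩ := hinf.exists_gt a
      exact ⟨b, hb, hab⟩
    refine ⟨Nat.find hex, Nat.find_spec hex, fun z hz => ?_⟩
    have := Nat.find_min hex hz
    by_cases hzY : z ∈ Y
    · right
      by_contra hcon
      exact this ⟨hzY, by omega⟩
    · exact Or.inl hzY
  obtain ⟨s, hs, h2⟩ := choose_total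
    (R := fun a b => (b ∈ Y ∧ a < b) ∧ ∀ z < b, z ∈ Yᶜ ∨ z < a + 1) h1 hleast
  -- the least element
  classical
  have hne : ∃ b, b ∈ Y := by
    obtain ⟨b, hb, -⟩ := hinf.exists_gt 0
    exact ⟨b, hb⟩
  obtain ⟨b, hb, hbm⟩ : ∃ b, b ∈ Y ∧ ∀ z < b, z ∉ Y :=
    ⟨Nat.find hne, Nat.find_spec hne, fun z hz => Nat.find_min hne hz⟩
  have hmono := strictMono_iter (fun n => (h2 n).1.2) b
  refine ⟨fun n => s^[n] b, computable_iter hs _, hmono, ?_⟩
  apply Set.Subset.antisymm
  · rintro - ⟨n, rfl⟩
    show s^[n] b ∈ Y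
    cases n with
    | zero => exact hb
    | succ n =>
      rw [Function.iterate_succ_apply']
      exact (h2 _).1.1
  · intro y hy
    -- the last member of the sequence which is at most `y`
    have hby : b ≤ y := by
      by_contra hcon
      exact hbm y (by omega) hy
    obtain ⟨n, hn1, hn2⟩ : ∃ n, s^[n] b ≤ y ∧ y < s^[n + 1] b := by
      by_contra hcon
      push Not at hcon
      have h3 : ∀ n, s^[n] b ≤ y := by
        intro n
        induction n with
        | zero => exact hby
        | succ n ih => exact hcon n ih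
      have h4 := h3 (y + 1)
      have h5 := hmono.le_apply (x := y + 1)
      have h5 : y + 1 ≤ s^[y + 1] b := h5
      omega
    refine ⟨n, ?_⟩
    show s^[n] b = y
    by_contra hne'
    rw [Function.iterate_succ_apply'] at hn2
    rcases (h2 (s^[n] b)).2 y hn2 with h6 | h6
    · exact h6 hy
    · omega

/-- Finitely many r.e. sets are trivial on a computable set. -/
theorem exists_trivial {β : Type} [Finite β] (p : β → Set ℕ) (hp : ∀ b, Re (p b)) :
    ∃ R : Set ℕ, Rec R ∧ R.Infinite ∧ ∀ b, R ⊆ p b ∨ R ∩ p b = ∅ := by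
  classical
  have := Fintype.ofFinite β
  have key : ∀ s : Finset β, ∃ R : Set ℕ, Rec R ∧ R.Infinite ∧
      ∀ b ∈ s, R ⊆ p b ∨ R ∩ p b = ∅ := by
    intro s
    induction s using Finset.induction_on with
    | empty => exact ⟨Set.univ, rec_univ, Set.infinite_univ, by simp⟩
    | insert b s _ ih =>
      obtain ⟨R, hR, hinf, h⟩ := ih
      by_cases hb : (R ∩ p b).Finite
      · refine ⟨R \ (R ∩ p b), hR.diff (rec_finite hb), hinf.sdiff hb, ?_⟩
        intro c hc
        rw [Finset.mem_insert] at hc
        rcases hc with rfl | hc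
        · right
          ext x
          simp
        · rcases h c hc with h1 | h1
          · exact Or.inl (Set.sdiff_subset.trans h1)
          · right
            exact Set.subset_eq_empty (Set.inter_subset_inter_left _ Set.sdiff_subset) h1
      · obtain ⟨t, ht, hm, hsub⟩ := exists_sub (hR.re.inter (hp b)) hb
        refine ⟨Set.range t, rec_range ht hm, Set.infinite_range_of_injective hm.injective, ?_⟩
        intro c hc
        rw [Finset.mem_insert] at hc
        rcases hc with rfl | hc
        · left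
          exact hsub.trans Set.inter_subset_right
        · rcases h c hc with h1 | h1
          · exact Or.inl ((hsub.trans Set.inter_subset_left).trans h1)
          · right
            exact Set.subset_eq_empty (Set.inter_subset_inter_left _
              (hsub.trans Set.inter_subset_left)) h1
  obtain ⟨R, h1, h2, h3⟩ := key Finset.univ
  exact ⟨R, h1, h2, fun b => h3 b (Finset.mem_univ b)⟩

/-- A decomposition into two infinite computable parts, the second of them trivial for the given
r.e. sets. -/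
theorem exists_dec {β : Type} [Finite β] (p : β → Set ℕ) (hp : ∀ b, Re (p b)) :
    ∃ r t : ℕ → ℕ, Computable r ∧ Computable t ∧ Function.Injective r ∧ Function.Injective t ∧
      (∀ x y, r x ≠ t y) ∧ (∀ z, (∃ x, r x = z) ∨ ∃ x, t x = z) ∧
      ∀ b, (∀ x, t x ∈ p b) ∨ ∀ x, t x ∉ p b := by
  obtain ⟨R, hR, hinf, h⟩ := exists_trivial p hp
  obtain ⟨u, hu, hum, hur⟩ := exists_enumeration hR hinf
  obtain ⟨t, htd⟩ : ∃ t : ℕ → ℕ, t = fun k => u (2 * k) := ⟨_, rfl⟩
  have ht : Computable t := by rw [htd]; exact hu.comp (by fun_prop)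
  have htm : StrictMono t := by
    rw [htd]
    intro a b hab
    exact hum (by omega)
  have hYinf : (Set.range t)ᶜ.Infinite := by
    have h1 : Set.range (fun k => u (2 * k + 1)) ⊆ (Set.range t)ᶜ := by
      rintro - ⟨k, rfl⟩ ⟨l, hl⟩
      rw [htd] at hl
      have := hum.injective hl
      omega
    refine Set.Infinite.mono h1 (Set.infinite_range_of_injective ?_)
    intro a b hab
    have := hum.injective hab
    omega
  obtain ⟨r, hr, hrm, hrr⟩ := exists_enumeration (rec_range ht htm).compl hYinf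
  refine ⟨r, t, hr, ht, hrm.injective, htm.injective, ?_, ?_, ?_⟩
  · intro x y hxy
    have : r x ∈ (Set.range t)ᶜ := by rw [← hrr]; exact ⟨x, rfl⟩
    exact this ⟨y, hxy.symm⟩
  · intro z
    by_cases hz : z ∈ Set.range t
    · exact Or.inr hz
    · left
      have : z ∈ Set.range r := by rw [hrr]; exact hz
      exact this
  · intro b
    have htR : ∀ x, t x ∈ R := by
      intro x
      rw [← hur, htd]
      exact ⟨_, rfl⟩
    rcases h b with h1 | h1
    · exact Or.inl fun x => h1 (htR x)
    · right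
      intro x hx
      have : t x ∈ R ∩ p b := ⟨htR x, hx⟩
      rw [h1] at this
      exact this

/-- Splitting along a finite computable decomposition. -/
theorem exists_iso {J : Type} [Finite J] (g : J → ℕ → ℕ) (hg : ∀ o, Computable (g o))
    (hinj : ∀ o x o' x', g o x = g o' x' → o = o' ∧ x = x') (hsurj : ∀ z, ∃ o x, g o x = z) :
    ∃ f : (J → ER) ≃o ER, ∀ F : J → ER, (f F).1 = {y | ∃ o x, x ∈ (F o).1 ∧ g o x = y} := by
  classical
  have := Fintype.ofFinite J
  have hpre : ∀ (X : ER) (o : J), Re {x | g o x ∈ X.1} := fun X o =>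
    RE.comp (p := fun x : ℕ => x ∈ X.1) X.2 (hg o)
  have himg : ∀ (X : ER) (o : J), Re {y | ∃ x, x ∈ X.1 ∧ g o x = y} := by
    intro X o
    unfold Re
    refine RE.exN (p := fun (y : ℕ) x => x ∈ X.1 ∧ g o x = y) (RE.and ?_ ?_)
    · exact RE.comp (p := fun x : ℕ => x ∈ X.1) X.2 (f := fun x : ℕ × ℕ => x.2) (by fun_prop)
    · exact RE.eq ((hg o).comp (by fun_prop)) (by fun_prop)
  have hun : ∀ F : J → ER, Re {y | ∃ o x, x ∈ (F o).1 ∧ g o x = y} := by
    intro F
    have h1 : ∀ s : Finset J, Re {y | ∃ o ∈ s, ∃ x, x ∈ (F o).1 ∧ g o x = y} := by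
      intro s
      induction s using Finset.induction_on with
      | empty =>
        have e : {y | ∃ o ∈ (∅ : Finset J), ∃ x, x ∈ (F o).1 ∧ g o x = y} = ∅ := by
          ext y; simp
        rw [e]; exact re_empty
      | insert o s _ ih =>
        have e : {y | ∃ o' ∈ insert o s, ∃ x, x ∈ (F o').1 ∧ g o' x = y} =
            {y | ∃ x, x ∈ (F o).1 ∧ g o x = y} ∪ {y | ∃ o ∈ s, ∃ x, x ∈ (F o).1 ∧ g o x = y} := by
          ext y
          constructor
          · rintro ⟨o', ho', h⟩
            rcases Finset.mem_insert.1 ho' with rfl | h'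
            · exact Or.inl h
            · exact Or.inr ⟨o', h', h⟩
          · rintro (h | ⟨o', ho', h⟩)
            · exact ⟨o, Finset.mem_insert_self _ _, h⟩
            · exact ⟨o', Finset.mem_insert_of_mem ho', h⟩
        rw [e]; exact (himg _ _).union ih
    have e : {y | ∃ o x, x ∈ (F o).1 ∧ g o x = y} =
        {y | ∃ o ∈ Finset.univ, ∃ x, x ∈ (F o).1 ∧ g o x = y} := by
      ext y; simp
    rw [e]; exact h1 _
  refine ⟨{ toFun := fun F => ⟨_, hun F⟩
            invFun := fun X o => ⟨_, hpre X o⟩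
            left_inv := ?_
            right_inv := ?_
            map_rel_iff' := ?_ }, fun F => rfl⟩
  · intro F
    funext o
    refine Subtype.ext (Set.ext fun x => ?_)
    constructor
    · rintro ⟨o', x', h1, h2⟩
      obtain ⟨rfl, rfl⟩ := hinj _ _ _ _ h2
      exact h1
    · intro h
      exact ⟨o, x, h, rfl⟩
  · intro X
    refine Subtype.ext (Set.ext fun y => ?_)
    constructor
    · rintro ⟨o, x, h1, rfl⟩
      exact h1
    · intro h
      obtain ⟨o, x, rfl⟩ := hsurj y
      exact ⟨o, x, h, rfl⟩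
  · intro F F'
    constructor
    · intro h o x hx
      obtain ⟨o', x', h1, h2⟩ := h (show g o x ∈ {y | ∃ o x, x ∈ (F o).1 ∧ g o x = y} from
        ⟨o, x, hx, rfl⟩)
      obtain ⟨rfl, rfl⟩ := hinj _ _ _ _ h2
      exact h1
    · rintro h y ⟨o, x, h1, h2⟩
      exact ⟨o, x, h o h1, h2⟩

end Pool.Agent.KS6_40.QM
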