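import Mathlib

/-!
# Types in direct powers of a partial order

Adding one more coordinate, whose type already occurs often enough, does not change the type of
finite quantifier depth (Feferman and Vaught, for powers).
-/

set_option autoImplicit false

namespace Pool.Agent.KS6_40.QM

open FirstOrder FirstOrder.Language

/-- types of depth `q` of tuples -/
def Ty (α : Type) : ℕ → ℕ → Type
  | 0, n => Set ((α ⊕ Fin n) × (α ⊕ Fin n))
  | q + 1, n => Set (Ty α q (n + 1)) × Ty α q n

theorem finite_ty (α : Type) [Finite α] : ∀ q n, Finite (Ty α q n)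
  | 0, n => by unfold Ty; infer_instance
  | q + 1, n => by
    have h1 := finite_ty α q (n + 1)
    have h2 := finite_ty α q n
    unfold Ty
    infer_instance

instance instFiniteTy (α : Type) [Finite α] (q n : ℕ) : Finite (Ty α q n) := finite_ty α q n

variable {α : Type}

/-- the type of a tuple -/
def tp {D : Type} [LE D] (v : α → D) : (q n : ℕ) → (Fin n → D) → Ty α q n
  | 0, _, x => {p | Sum.elim v x p.1 ≤ Sum.elim v x p.2}
  | q + 1, n, x => (Set.range fun y : D => tp v q (n + 1) (Fin.snoc x y), tp v q n x)

/-- the type of depth zero -/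
def at0 {D : Type} [LE D] (v : α → D) (n : ℕ) (x : Fin n → D) :
    Set ((α ⊕ Fin n) × (α ⊕ Fin n)) :=
  {p | Sum.elim v x p.1 ≤ Sum.elim v x p.2}

theorem mem_at0 {D : Type} [LE D] (v : α → D) (n : ℕ) (x : Fin n → D)
    (p : (α ⊕ Fin n) × (α ⊕ Fin n)) :
    p ∈ at0 v n x ↔ Sum.elim v x p.1 ≤ Sum.elim v x p.2 := Iff.rfl

theorem tp_succ {D : Type} [LE D] (v : α → D) (q n : ℕ) (x : Fin n → D) :
    tp v (q + 1) n x = (Set.range fun y : D => tp v q (n + 1) (Fin.snoc x y), tp v q n x) := rfl

/-- invariance under isomorphisms -/
theorem tp_iso {D E : Type} [LE D] [LE E] (f : D ≃o E) (v : α → D) (q : ℕ) :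
    ∀ (n : ℕ) (x : Fin n → D), tp (fun a => f (v a)) q n (fun k => f (x k)) = tp v q n x := by
  induction q with
  | zero =>
    intro n x
    show at0 _ n _ = at0 _ n _
    refine Set.ext fun p => ?_
    rw [mem_at0, mem_at0]
    have h : ∀ z : α ⊕ Fin n, Sum.elim (fun a => f (v a)) (fun k => f (x k)) z =
        f (Sum.elim v x z) := by
      rintro (z | z) <;> rfl
    rw [h, h, f.le_iff_le]
  | succ q ih =>
    intro n x
    rw [tp_succ, tp_succ, ih]
    refine Prod.ext ?_ rfl
    have h : ∀ y : D, (Fin.snoc (fun k => f (x k)) (f y) : Fin (n + 1) → E) =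
        fun k => f ((Fin.snoc x y : Fin (n + 1) → D) k) := by
      intro y
      funext k
      induction k using Fin.lastCases with
      | last => simp
      | cast k => simp
    refine Set.ext fun t => ⟨?_, ?_⟩
    · rintro ⟨y, rfl⟩
      refine ⟨f.symm y, ?_⟩
      have := h (f.symm y)
      rw [f.apply_symm_apply] at this
      simp only [this, ih]
    · rintro ⟨y, rfl⟩
      refine ⟨f y, ?_⟩
      simp only [h y, ih]

/-- invariance under reindexing the coordinates -/
theorem tp_perm {D I J : Type} [LE D] (e : J ≃ I) (v : α → I → D) (q n : ℕ) (x : Fin n → I → D) :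
    tp (fun a (j : J) => v a (e j)) q n (fun k (j : J) => x k (e j)) = tp v q n x := by
  let f : (I → D) ≃o (J → D) :=
    { toFun := fun g j => g (e j)
      invFun := fun g i => g (e.symm i)
      left_inv := fun g => by funext i; simp
      right_inv := fun g => by funext j; simp
      map_rel_iff' := by
        intro g g'
        constructor
        · intro h i
          have := h (e.symm i)
          simpa using this
        · intro h j
          exact h (e j) }
  exact tp_iso f v q n x

/-- thresholds -/
noncomputable def TT (α : Type) : ℕ → ℕ → ℕ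
  | 0, _ => 1
  | q + 1, n => Nat.card (Ty α q (n + 1)) * (TT α q (n + 1) + 1) + TT α q n + 1

/-- The pigeonhole principle. -/
theorem pigeon {I C : Type} [Finite C] (G : Finset I) (f : I → C) (T : ℕ)
    (h : Nat.card C * T + 1 ≤ G.card) : ∃ s ∈ G, T ≤ {i | i ∈ G ∧ f i = f s}.ncard := by
  classical
  have := Fintype.ofFinite C
  rw [Nat.card_eq_fintype_card] at h
  obtain ⟨y, -, hy⟩ := Finset.exists_lt_card_fiber_of_mul_lt_card_of_maps_to (s := G)
    (t := (Finset.univ : Finset C)) (f := f) (n := T) (fun _ _ => Finset.mem_univ _)
    (by rw [Finset.card_univ]; omega)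
  obtain ⟨s, hs⟩ := Finset.card_pos.1 (lt_of_le_of_lt (Nat.zero_le T) hy)
  rw [Finset.mem_filter] at hs
  refine ⟨s, hs.1, ?_⟩
  have e : {i | i ∈ G ∧ f i = f s} = ((G.filter fun i => f i = y : Finset I) : Set I) := by
    ext i
    simp [hs.2]
  rw [e, Set.ncard_coe_finset]
  exact hy.le

theorem snoc_app {D I : Type} {n : ℕ} (x : Fin n → I → D) (z : I → D) (i : I) :
    (fun k => (Fin.snoc x z : Fin (n + 1) → I → D) k i) =
      (Fin.snoc (fun k => x k i) (z i) : Fin (n + 1) → D) := by
  funext k
  induction k using Fin.lastCases with
  | last => simp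
  | cast k => simp

/-- **Adding a coordinate.** -/
theorem tp_add {D : Type} [LE D] [Finite α] (q : ℕ) : ∀ (n : ℕ) (I : Type) [Finite I]
    (v : α → I → D) (x : Fin n → I → D) (w : α → Option I → D) (y : Fin n → Option I → D),
    (∀ i, tp (fun a => v a i) q n (fun k => x k i) =
      tp (fun a => w a (some i)) q n (fun k => y k (some i))) →
    TT α q n ≤ {i | tp (fun a => v a i) q n (fun k => x k i) =
      tp (fun a => w a none) q n (fun k => y k none)}.ncard →
    tp v q n x = tp w q n y := by
  classical
  induction q with
  | zero =>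
    intro n I _ v x w y h1 h2
    have h3 : {i | tp (fun a => v a i) 0 n (fun k => x k i) =
      tp (fun a => w a none) 0 n (fun k => y k none)}.Nonempty := by
      by_contra hcon
      rw [Set.not_nonempty_iff_eq_empty] at hcon
      rw [hcon, Set.ncard_empty] at h2
      simp [TT] at h2
    obtain ⟨i0, hi0⟩ := h3
    have hx : ∀ (i : I) (z : α ⊕ Fin n), Sum.elim v x z i =
        Sum.elim (fun a => v a i) (fun k => x k i) z := by
      rintro i (z | z) <;> rfl
    have hy : ∀ (i : Option I) (z : α ⊕ Fin n), Sum.elim w y z i =
        Sum.elim (fun a => w a i) (fun k => y k i) z := by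
      rintro i (z | z) <;> rfl
    show at0 _ n _ = at0 _ n _
    refine Set.ext fun p => ?_
    rw [mem_at0, mem_at0, Pi.le_def, Pi.le_def]
    have h4 : ∀ i, (Sum.elim v x p.1 i ≤ Sum.elim v x p.2 i ↔
        Sum.elim w y p.1 (some i) ≤ Sum.elim w y p.2 (some i)) := by
      intro i
      have h6 : at0 (fun a => v a i) n (fun k => x k i) =
        at0 (fun a => w a (some i)) n (fun k => y k (some i)) := h1 i
      rw [hx, hx, hy, hy, ← mem_at0, ← mem_at0, h6]
    have h5 : (Sum.elim v x p.1 i0 ≤ Sum.elim v x p.2 i0 ↔
        Sum.elim w y p.1 none ≤ Sum.elim w y p.2 none) := by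
      have h6 : at0 (fun a => v a i0) n (fun k => x k i0) =
        at0 (fun a => w a none) n (fun k => y k none) := hi0
      rw [hx, hx, hy, hy, ← mem_at0, ← mem_at0, h6]
    constructor
    · rintro h (_ | i)
      · exact h5.1 (h i0)
      · exact (h4 i).1 (h i)
    · intro h i
      exact (h4 i).2 (h (some i))
  | succ q ih =>
    intro n I _ v x w y h1 h2
    -- the set of indices of the type of the new coordinate
    have hfin : {i | tp (fun a => v a i) (q + 1) n (fun k => x k i) =
      tp (fun a => w a none) (q + 1) n (fun k => y k none)}.Finite := Set.toFinite _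
    obtain ⟨G, hG⟩ : ∃ G : Finset I, ∀ i, i ∈ G ↔ tp (fun a => v a i) (q + 1) n (fun k => x k i) =
      tp (fun a => w a none) (q + 1) n (fun k => y k none) := by
      refine ⟨hfin.toFinset, fun i => ?_⟩
      simp
    have hGc : Nat.card (Ty α q (n + 1)) * (TT α q (n + 1) + 1) + TT α q n + 1 ≤ G.card := by
      have e : {i | tp (fun a => v a i) (q + 1) n (fun k => x k i) =
        tp (fun a => w a none) (q + 1) n (fun k => y k none)} = (G : Set I) := by
        ext i; simp [hG]
      rw [e, Set.ncard_coe_finset] at h2
      exact h2
    have hset : ∀ i, (Set.range fun z : D => tp (fun a => v a i) q (n + 1)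
        (Fin.snoc (fun k => x k i) z)) = Set.range fun z : D => tp (fun a => w a (some i)) q (n + 1)
        (Fin.snoc (fun k => y k (some i)) z) := by
      intro i
      have := h1 i
      rw [tp_succ, tp_succ] at this
      exact (Prod.ext_iff.1 this).1
    have hset0 : ∀ i ∈ G, (Set.range fun z : D => tp (fun a => v a i) q (n + 1)
        (Fin.snoc (fun k => x k i) z)) = Set.range fun z : D => tp (fun a => w a none) q (n + 1)
        (Fin.snoc (fun k => y k none) z) := by
      intro i hi
      have := (hG i).1 hi
      rw [tp_succ, tp_succ] at this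
      exact (Prod.ext_iff.1 this).1
    rw [tp_succ, tp_succ]
    refine Prod.ext (Set.ext fun t => ⟨?_, ?_⟩) ?_
    · rintro ⟨z, rfl⟩
      obtain ⟨s, hs, hsc⟩ := pigeon G (fun i => tp (fun a => v a i) q (n + 1)
        (Fin.snoc (fun k => x k i) (z i))) (TT α q (n + 1)) (by
          have : Nat.card (Ty α q (n + 1)) * TT α q (n + 1) ≤
            Nat.card (Ty α q (n + 1)) * (TT α q (n + 1) + 1) := Nat.mul_le_mul_left _ (by omega)
          omega)
      -- choose the elements on the other side
      have hc1 : ∀ i, ∃ z' : D, tp (fun a => w a (some i)) q (n + 1)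
          (Fin.snoc (fun k => y k (some i)) z') = tp (fun a => v a i) q (n + 1)
          (Fin.snoc (fun k => x k i) (z i)) := by
        intro i
        have : tp (fun a => v a i) q (n + 1) (Fin.snoc (fun k => x k i) (z i)) ∈
            Set.range fun z : D => tp (fun a => w a (some i)) q (n + 1)
              (Fin.snoc (fun k => y k (some i)) z) := by
          rw [← hset i]; exact ⟨z i, rfl⟩
        exact this
      have hc0 : ∃ z' : D, tp (fun a => w a none) q (n + 1)
          (Fin.snoc (fun k => y k none) z') = tp (fun a => v a s) q (n + 1)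
          (Fin.snoc (fun k => x k s) (z s)) := by
        have : tp (fun a => v a s) q (n + 1) (Fin.snoc (fun k => x k s) (z s)) ∈
            Set.range fun z : D => tp (fun a => w a none) q (n + 1)
              (Fin.snoc (fun k => y k none) z) := by
          rw [← hset0 s hs]; exact ⟨z s, rfl⟩
        exact this
      choose z1 hz1 using hc1
      obtain ⟨z0, hz0⟩ := hc0
      refine ⟨fun o => o.elim z0 z1, ?_⟩
      symm
      refine ih (n + 1) I v (Fin.snoc x z) w (Fin.snoc y fun o => o.elim z0 z1) ?_ ?_
      · intro i
        rw [snoc_app, snoc_app]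
        exact (hz1 i).symm
      · simp only [snoc_app]
        refine hsc.trans (Set.ncard_le_ncard ?_ (Set.toFinite _))
        rintro i ⟨-, hi⟩
        exact hi.trans hz0.symm
    · rintro ⟨z, rfl⟩
      obtain ⟨s, hs, hsc⟩ := pigeon G (fun i => tp (fun a => w a (some i)) q (n + 1)
        (Fin.snoc (fun k => y k (some i)) (z (some i)))) (TT α q (n + 1) + 1) (by omega)
      -- exchange the coordinates `none` and `some s`
      obtain ⟨e, he⟩ : ∃ e : Option I ≃ Option I, e = Equiv.swap none (some s) := ⟨_, rfl⟩
      have he0 : e none = some s := by rw [he, Equiv.swap_apply_left]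
      have hes : e (some s) = none := by rw [he, Equiv.swap_apply_right]
      have hei : ∀ i, i ≠ s → e (some i) = some i := by
        intro i hi
        rw [he, Equiv.swap_apply_of_ne_of_ne (by simp) (by simpa using hi)]
      have hperm := tp_perm e w q (n + 1) (Fin.snoc y z)
      have hsn : (fun k (j : Option I) => (Fin.snoc y z : Fin (n + 1) → Option I → D) k (e j)) =
          (Fin.snoc (fun k j => y k (e j)) (fun j => z (e j)) : Fin (n + 1) → Option I → D) := by
        funext k
        induction k using Fin.lastCases with
        | last => simp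
        | cast k => simp
      rw [hsn] at hperm
      have hc1 : ∀ i, ∃ z' : D, tp (fun a => v a i) q (n + 1)
          (Fin.snoc (fun k => x k i) z') = tp (fun a => w a (e (some i))) q (n + 1)
          (Fin.snoc (fun k => y k (e (some i))) (z (e (some i)))) := by
        intro i
        by_cases hi : i = s
        · subst hi
          have : tp (fun a => w a (e (some i))) q (n + 1)
              (Fin.snoc (fun k => y k (e (some i))) (z (e (some i)))) ∈
              Set.range fun z : D => tp (fun a => v a i) q (n + 1)
              (Fin.snoc (fun k => x k i) z) := by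
            rw [hset0 i hs, hes]; exact ⟨_, rfl⟩
          exact this
        · have : tp (fun a => w a (e (some i))) q (n + 1)
              (Fin.snoc (fun k => y k (e (some i))) (z (e (some i)))) ∈
              Set.range fun z : D => tp (fun a => v a i) q (n + 1)
              (Fin.snoc (fun k => x k i) z) := by
            rw [hset i, hei i hi]; exact ⟨_, rfl⟩
          exact this
      choose z1 hz1 using hc1
      refine ⟨z1, ?_⟩
      show tp v q (n + 1) (Fin.snoc x z1) = tp w q (n + 1) (Fin.snoc y z)
      rw [← hperm]
      refine ih (n + 1) I v (Fin.snoc x z1) (fun a j => w a (e j))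
        (Fin.snoc (fun k j => y k (e j)) fun j => z (e j)) ?_ ?_
      · intro i
        rw [snoc_app, snoc_app]
        exact hz1 i
      · simp only [snoc_app]
        have hsub : {i | i ∈ G ∧ tp (fun a => w a (some i)) q (n + 1)
            (Fin.snoc (fun k => y k (some i)) (z (some i))) = tp (fun a => w a (some s)) q (n + 1)
            (Fin.snoc (fun k => y k (some s)) (z (some s)))} \ {s} ⊆
            {i | tp (fun a => v a i) q (n + 1) (Fin.snoc (fun k => x k i) (z1 i)) =
              tp (fun a => w a (e none)) q (n + 1)
              (Fin.snoc (fun k => y k (e none)) (z (e none)))} := by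
          rintro i ⟨⟨-, hi⟩, his⟩
          have his : i ≠ s := his
          have := hz1 i
          rw [hei i his] at this
          show tp (fun a => v a i) q (n + 1) (Fin.snoc (fun k => x k i) (z1 i)) = _
          rw [this, he0]
          exact hi
        have h6 := Set.ncard_le_ncard hsub (Set.toFinite _)
        have h7 := Set.ncard_sdiff_singleton_le {i | i ∈ G ∧ tp (fun a => w a (some i)) q (n + 1)
            (Fin.snoc (fun k => y k (some i)) (z (some i))) = tp (fun a => w a (some s)) q (n + 1)
            (Fin.snoc (fun k => y k (some s)) (z (some s)))} s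
        have h8 := Set.pred_ncard_le_ncard_sdiff_singleton
          {i | i ∈ G ∧ tp (fun a => w a (some i)) q (n + 1)
            (Fin.snoc (fun k => y k (some i)) (z (some i))) = tp (fun a => w a (some s)) q (n + 1)
            (Fin.snoc (fun k => y k (some s)) (z (some s)))} s
        omega
    · refine ih n I v x w y ?_ ?_
      · intro i
        have := h1 i
        rw [tp_succ, tp_succ] at this
        exact (Prod.ext_iff.1 this).2
      · have hsub : (G : Set I) ⊆ {i | tp (fun a => v a i) q n (fun k => x k i) =
            tp (fun a => w a none) q n (fun k => y k none)} := by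
          intro i hi
          have := (hG i).1 hi
          rw [tp_succ, tp_succ] at this
          exact (Prod.ext_iff.1 this).2
        have h6 := Set.ncard_le_ncard hsub (Set.toFinite _)
        rw [Set.ncard_coe_finset] at h6
        omega

end Pool.Agent.KS6_40.QM
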