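import Pool.Agent.KS6_40.QM.FV

/-!
# Types determine the truth of formulas
-/

set_option autoImplicit false

namespace Pool.Agent.KS6_40.QM

open FirstOrder FirstOrder.Language

variable {α : Type}

/-- quantifier depth -/
def qd : {n : ℕ} → Language.order.BoundedFormula α n → ℕ
  | _, .falsum => 0
  | _, .equal _ _ => 0
  | _, .rel _ _ => 0
  | _, .imp φ ψ => max (qd φ) (qd ψ)
  | _, .all φ => qd φ + 1

theorem tp_eq_of_le {D E : Type} [LE D] [LE E] {v : α → D} {w : α → E} {q r n : ℕ}
    {x : Fin n → D} {y : Fin n → E} (h : tp v q n x = tp w q n y) (hr : r ≤ q) :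
    tp v r n x = tp w r n y := by
  induction q with
  | zero =>
    obtain rfl : r = 0 := by omega
    exact h
  | succ q ih =>
    rcases Nat.lt_or_ge r (q + 1) with h1 | h1
    · rw [tp_succ, tp_succ] at h
      exact ih (Prod.ext_iff.1 h).2 (by omega)
    · obtain rfl : r = q + 1 := by omega
      exact h

theorem le_iff_of_tp {D E : Type} [LE D] [LE E] {v : α → D} {w : α → E} {n : ℕ}
    {x : Fin n → D} {y : Fin n → E} (h : tp v 0 n x = tp w 0 n y) (a b : α ⊕ Fin n) :
    Sum.elim v x a ≤ Sum.elim v x b ↔ Sum.elim w y a ≤ Sum.elim w y b := by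
  have h' : at0 v n x = at0 w n y := h
  have := Set.ext_iff.1 h' (a, b)
  rwa [mem_at0, mem_at0] at this

theorem realize_iff {D E : Type} [PartialOrder D] [PartialOrder E]
    [Language.order.Structure D] [Language.order.Structure E]
    [Language.order.OrderedStructure D] [Language.order.OrderedStructure E]
    {v : α → D} {w : α → E} {n : ℕ} (φ : Language.order.BoundedFormula α n) :
    ∀ (q : ℕ) (x : Fin n → D) (y : Fin n → E), tp v q n x = tp w q n y → qd φ ≤ q →
      (φ.Realize v x ↔ φ.Realize w y) := by
  have hterm : ∀ {n : ℕ} (t : Language.order.Term (α ⊕ Fin n)), ∃ a : α ⊕ Fin n,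
      t = Term.var a := by
    intro n t
    cases t with
    | var a => exact ⟨a, rfl⟩
    | func f _ => exact isEmptyElim f
  induction φ with
  | falsum => intro q x y _ _; exact Iff.rfl
  | @equal n t₁ t₂ =>
    intro q x y h hq
    obtain ⟨a, rfl⟩ := hterm t₁
    obtain ⟨b, rfl⟩ := hterm t₂
    have h0 := tp_eq_of_le h (Nat.zero_le q)
    simp only [BoundedFormula.Realize, Term.realize_var]
    rw [le_antisymm_iff, le_antisymm_iff, le_iff_of_tp h0, le_iff_of_tp h0]
  | @rel n k R ts =>
    intro q x y h hq
    have h0 := tp_eq_of_le h (Nat.zero_le q)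
    cases R with
    | le =>
      obtain ⟨a, ha⟩ := hterm (ts 0)
      obtain ⟨b, hb⟩ := hterm (ts 1)
      have e1 : (fun i => (ts i).realize (Sum.elim v x)) =
          ![Sum.elim v x a, Sum.elim v x b] := by
        funext i
        fin_cases i
        · simp [ha]
        · simp [hb]
      have e2 : (fun i => (ts i).realize (Sum.elim w y)) =
          ![Sum.elim w y a, Sum.elim w y b] := by
        funext i
        fin_cases i
        · simp [ha]
        · simp [hb]
      simp only [BoundedFormula.Realize]
      rw [e1, e2]
      have f1 := OrderedStructure.relMap_leSymb (L := Language.order)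
        ![Sum.elim v x a, Sum.elim v x b]
      have f2 := OrderedStructure.relMap_leSymb (L := Language.order)
        ![Sum.elim w y a, Sum.elim w y b]
      have := le_iff_of_tp h0 a b
      exact f1.trans (this.trans f2.symm)
  | @imp n φ ψ ih1 ih2 =>
    intro q x y h hq
    have h1 : qd φ ≤ q := (le_max_left _ _).trans hq
    have h2 : qd ψ ≤ q := (le_max_right _ _).trans hq
    simp only [BoundedFormula.Realize]
    rw [ih1 q x y h h1, ih2 q x y h h2]
  | @all n φ ih =>
    intro q x y h hq
    obtain ⟨r, rfl⟩ : ∃ r, q = r + 1 := by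
      cases q with
      | zero => exact (Nat.not_succ_le_zero _ hq).elim
      | succ r => exact ⟨r, rfl⟩
    have hq' : qd φ ≤ r := Nat.le_of_succ_le_succ hq
    rw [tp_succ, tp_succ] at h
    have hs := (Prod.ext_iff.1 h).1
    simp only at hs
    simp only [BoundedFormula.Realize]
    constructor
    · intro hx z
      have : tp w r (n + 1) (Fin.snoc y z) ∈
          Set.range fun z : D => tp v r (n + 1) (Fin.snoc x z) := by
        rw [hs]; exact ⟨z, rfl⟩
      obtain ⟨z', hz'⟩ := this
      exact (ih r _ _ hz' hq').1 (hx z')
    · intro hy z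
      have : tp v r (n + 1) (Fin.snoc x z) ∈
          Set.range fun z : E => tp w r (n + 1) (Fin.snoc y z) := by
        rw [← hs]; exact ⟨z, rfl⟩
      obtain ⟨z', hz'⟩ := this
      exact (ih r _ _ hz'.symm hq').2 (hy z')

/-- **Large powers cannot be told apart.** `D` is a partial order which is isomorphic to the power
`J n → D`, where `J n` has one special coordinate and `n` equal ones. -/
theorem eventually_const {D : Type} [PartialOrder D] [Language.order.Structure D]
    [Language.order.OrderedStructure D] [Finite α]
    (f : (n : ℕ) → ((Option (Fin (n + 1)) → D) ≃o D)) (u₀ u₁ : α → D)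
    (φ : Language.order.Formula α) :
    ∃ N, ∀ n, N ≤ n →
      (φ.Realize (fun a => f n fun o => o.elim (u₀ a) fun _ => u₁ a) ↔
        φ.Realize (fun a => f N fun o => o.elim (u₀ a) fun _ => u₁ a)) := by
  classical
  refine ⟨TT α (qd φ) 0, fun n hn => ?_⟩
  induction n, hn using Nat.le_induction with
  | base => exact Iff.rfl
  | succ n hn ih =>
    rw [← ih]
    refine realize_iff φ (qd φ) default default ?_ le_rfl
    have h1 : ∀ n, tp (fun a => f n fun o => o.elim (u₀ a) fun _ => u₁ a) (qd φ) 0 default =
        tp (fun a (o : Option (Fin (n + 1))) => o.elim (u₀ a) fun _ => u₁ a) (qd φ) 0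
          default := by
      intro n
      have := tp_iso (f n) (fun a (o : Option (Fin (n + 1))) => o.elim (u₀ a) fun _ => u₁ a)
        (qd φ) 0 default
      rw [← this]
      congr 1
      exact Subsingleton.elim _ _
    rw [h1, h1]
    symm
    -- reindex `Option (Fin (n + 2))` as `Option (Option (Fin (n + 1)))`
    obtain ⟨e, he0, he1⟩ : ∃ e : Option (Option (Fin (n + 1))) ≃ Option (Fin (n + 1 + 1)),
        e (some none) = none ∧ ∀ o, o ≠ some none → ∃ k, e o = some k := by
      refine ⟨(Equiv.swap none (some none)).trans (Equiv.optionCongr (finSuccEquiv (n + 1)).symm),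
        ?_, ?_⟩
      · simp
      · intro o ho
        rcases ho' : Equiv.swap none (some none) o with _ | z
        · exfalso
          apply ho
          have := congrArg (Equiv.swap (none : Option (Option (Fin (n + 1)))) (some none)) ho'
          rw [Equiv.swap_apply_self, Equiv.swap_apply_left] at this
          exact this
        · refine ⟨(finSuccEquiv (n + 1)).symm z, ?_⟩
          rw [Equiv.trans_apply, ho']
          rfl
    have h2 := tp_perm e (fun a (o : Option (Fin (n + 1 + 1))) => o.elim (u₀ a) fun _ => u₁ a)
      (qd φ) 0 default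
    rw [← h2]
    refine tp_add (qd φ) 0 _ _ _ _ _ ?_ ?_
    · intro i
      have e1 : (fun a => (e (some i)).elim (u₀ a) fun _ => u₁ a) =
          fun a => i.elim (u₀ a) fun _ => u₁ a := by
        funext a
        rcases i with _ | i
        · rw [he0]; rfl
        · obtain ⟨k, hk⟩ := he1 (some (some i)) (by simp)
          rw [hk]; rfl
      rw [e1]
      congr 1
      exact Subsingleton.elim _ _
    · have hsub : Set.range (fun k : Fin (n + 1) => (some k : Option (Fin (n + 1)))) ⊆
          {i | tp (fun a => (i.elim (u₀ a) fun _ => u₁ a)) (qd φ) 0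
            (fun k => (default : Fin 0 → Option (Fin (n + 1)) → D) k i) =
            tp (fun a => (e none).elim (u₀ a) fun _ => u₁ a) (qd φ) 0
            (fun k => (default : Fin 0 → Option (Fin (n + 1 + 1)) → D) k (e none))} := by
        rintro - ⟨k, rfl⟩
        obtain ⟨k', hk'⟩ := he1 none (by simp)
        show tp (fun a => ((some k : Option (Fin (n + 1))).elim (u₀ a) fun _ => u₁ a)) _ _ _ =
          tp (fun a => (e none).elim (u₀ a) fun _ => u₁ a) _ _ _
        rw [hk']
        show tp u₁ _ _ _ = tp u₁ _ _ _
        congr 1
        exact Subsingleton.elim _ _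
      refine le_trans ?_ (Set.ncard_le_ncard hsub (Set.toFinite _))
      rw [← Set.image_univ, Set.ncard_image_of_injective _ (Option.some_injective _),
        Set.ncard_univ, Nat.card_eq_fintype_card, Fintype.card_fin]
      omega

end Pool.Agent.KS6_40.QM
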