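import Pool.Graph.R_pool_sql_team_668148b0.Helper446.EL.QM

/-!
# A maximal r.e. set (Friedberg)

The complement is the set of the final positions of movable markers; a marker moves to raise its
state.
-/

set_option autoImplicit false

namespace Pool.Agent.KS6_40.QM

open Pool.Agent.Helper446.RE Pool.Agent.Helper446.EL

/-- The state of `x` at stage `s` with respect to the first `n` r.e. sets. -/
def st (s x : ℕ) : ℕ → ℕ
  | 0 => 0
  | n + 1 => 2 * st s x n + (bif wst ℕ n s x then 1 else 0)

theorem st_lt_pow (s x n : ℕ) : st s x n < 2 ^ n := by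
  induction n with
  | zero => simp [st]
  | succ n ih =>
    rw [st, pow_succ]
    have : (bif wst ℕ n s x then 1 else 0) ≤ 1 := by cases wst ℕ n s x <;> simp
    omega

theorem st_mono {s t x : ℕ} (h : s ≤ t) (n : ℕ) : st s x n ≤ st t x n := by
  induction n with
  | zero => simp [st]
  | succ n ih =>
    rw [st, st]
    have : (bif wst ℕ n s x then 1 else 0) ≤ (bif wst ℕ n t x then 1 else 0) := by
      cases h1 : wst ℕ n s x
      · simp
      · rw [wst_mono h h1]
    omega

theorem st_congr {s x y n : ℕ} (h : ∀ e < n, wst ℕ e s x = wst ℕ e s y) :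
    st s x n = st s y n := by
  induction n with
  | zero => simp [st]
  | succ n ih =>
    rw [st, st, ih fun e he => h e (by omega), h n (by omega)]

theorem st_lt {s x y e : ℕ} (h : ∀ d < e, wst ℕ d s x = wst ℕ d s y)
    (hx : wst ℕ e s x = false) (hy : wst ℕ e s y = true) {n : ℕ} (hn : e < n) :
    st s x n < st s y n := by
  induction n, hn using Nat.le_induction with
  | base =>
    rw [st, st, st_congr h, hx, hy]
    simp
  | succ n hn ih =>
    rw [st, st]
    have : (bif wst ℕ n s x then 1 else 0) ≤ 1 := by cases wst ℕ n s x <;> simp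
    omega

/-- the shift coded by a number -/
def sh (K m : ℕ) : ℕ :=
  bif decide (K = 0) then m else
    bif decide (m < (K - 1).unpair.1) then m else m + ((K - 1).unpair.2 + 1)

/-- positions of the markers, from the history -/
def aa (H : List ℕ) (m : ℕ) : ℕ := H.foldl (fun m K => sh K m) m

/-- the test -/
def test (H : List ℕ) (s k : ℕ) : Bool :=
  decide (st s (aa H k.unpair.1) k.unpair.1 <
    st s (aa H (k.unpair.1 + (k.unpair.2 + 1))) k.unpair.1)

/-- the history -/
def hist : ℕ → List ℕ
  | 0 => []
  | s + 1 => Fr.fnd (test (hist s) s) s :: hist s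

/-- position of the marker `m` at stage `s` -/
def a (s m : ℕ) : ℕ := aa (hist s) m

/-- the move at stage `s` -/
def mv (s : ℕ) : ℕ := Fr.fnd (test (hist s) s) s

theorem a_zero (m : ℕ) : a 0 m = m := rfl

theorem a_succ (s m : ℕ) : a (s + 1) m = a s (sh (mv s) m) := rfl

theorem le_sh (K m : ℕ) : m ≤ sh K m := by
  unfold sh
  cases h1 : decide (K = 0) <;> cases h2 : decide (m < (K - 1).unpair.1) <;> simp

theorem sh_strictMono (K : ℕ) : StrictMono (sh K) := by
  intro m n hmn
  unfold sh
  by_cases h1 : K = 0
  · simpa [h1] using hmn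
  · by_cases h2 : m < (K - 1).unpair.1
    · by_cases h3 : n < (K - 1).unpair.1
      · simp [h1, h2, h3, hmn]
      · simp [h1, h2, h3]; omega
    · have h3 : ¬ n < (K - 1).unpair.1 := by omega
      simp [h1, h2, h3, hmn]

theorem a_strictMono (s : ℕ) : StrictMono (a s) := by
  induction s with
  | zero => exact strictMono_id
  | succ s ih => exact ih.comp (sh_strictMono _)

theorem a_le_succ (s m : ℕ) : a s m ≤ a (s + 1) m := by
  rw [a_succ]; exact (a_strictMono s).monotone (le_sh _ _)

theorem le_a (s m : ℕ) : m ≤ a s m := (a_strictMono s).le_apply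

theorem range_succ {s x : ℕ} (h : ∃ m, a (s + 1) m = x) : ∃ m, a s m = x := by
  obtain ⟨m, hm⟩ := h
  exact ⟨_, hm⟩

theorem range_anti {s t x : ℕ} (hst : s ≤ t) (h : ∃ m, a t m = x) : ∃ m, a s m = x := by
  induction t, hst using Nat.le_induction with
  | base => exact h
  | succ t _ ih => exact ih (range_succ h)

/-- every marker moves only finitely often -/
theorem settle (n : ℕ) : ∃ s0, ∀ s, s0 ≤ s → mv s = 0 ∨ n ≤ (mv s - 1).unpair.1 := by
  induction n with
  | zero => exact ⟨0, fun s _ => Or.inr (Nat.zero_le _)⟩
  | succ n ih =>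
    obtain ⟨s0, hs0⟩ := ih
    -- the state of marker `n` increases
    have hstep : ∀ s, s0 ≤ s → st s (a s n) n ≤ st (s + 1) (a (s + 1) n) n ∧
        (¬ (mv s = 0 ∨ n + 1 ≤ (mv s - 1).unpair.1) →
          st s (a s n) n < st (s + 1) (a (s + 1) n) n) := by
      intro s hs
      by_cases h0 : mv s = 0
      · refine ⟨?_, fun h => (h (Or.inl h0)).elim⟩
        rw [a_succ, h0]
        simpa [sh] using st_mono (Nat.le_succ s) n
      · by_cases h1 : n + 1 ≤ (mv s - 1).unpair.1
        · refine ⟨?_, fun h => (h (Or.inr h1)).elim⟩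
          have h2 : sh (mv s) n = n := by
            unfold sh
            simp [h0, Nat.lt_of_succ_le h1]
          rw [a_succ, h2]
          exact st_mono (Nat.le_succ s) n
        · have h2 : (mv s - 1).unpair.1 = n := by
            rcases hs0 s hs with h3 | h3
            · exact (h0 h3).elim
            · omega
          obtain ⟨k, hk⟩ : ∃ k, mv s = k + 1 := ⟨mv s - 1, by omega⟩
          obtain ⟨-, h4, -⟩ := Fr.fnd_succ (show Fr.fnd (test (hist s) s) s = k + 1 from hk)
          have hk1 : mv s - 1 = k := by omega
          rw [hk1] at h2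
          unfold test at h4
          rw [decide_eq_true_iff, h2] at h4
          have h5 : a (s + 1) n = aa (hist s) (n + (k.unpair.2 + 1)) := by
            rw [a_succ]
            unfold a sh
            simp [h0, hk1, h2]
          have h6 : st s (a s n) n < st (s + 1) (a (s + 1) n) n := by
            rw [h5]
            exact lt_of_lt_of_le h4 (st_mono (Nat.le_succ s) n)
          exact ⟨h6.le, fun _ => h6⟩
    by_contra hcon
    push Not at hcon
    have key : ∀ B, ∃ s, s0 ≤ s ∧ B ≤ st s (a s n) n := by
      intro B
      induction B with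
      | zero => exact ⟨s0, le_rfl, Nat.zero_le _⟩
      | succ B ih =>
        obtain ⟨s, hs, hB⟩ := ih
        obtain ⟨t, ht, h1, h2⟩ := hcon s
        have hst : st s (a s n) n ≤ st t (a t n) n := by
          induction t, ht using Nat.le_induction with
          | base => exact le_rfl
          | succ u hu ih' =>
            clear h1 h2
            have : ∀ u, s ≤ u → st s (a s n) n ≤ st u (a u n) n := by
              intro u hu
              induction u, hu using Nat.le_induction with
              | base => exact le_rfl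
              | succ u hu ih => exact ih.trans (hstep u (by omega)).1
            exact this _ (by omega)
        refine ⟨t + 1, by omega, ?_⟩
        have := (hstep t (by omega)).2 (by
          rintro (h3 | h3)
          · exact h1 h3
          · omega)
        omega
    obtain ⟨s, -, hs⟩ := key (2 ^ n)
    have := st_lt_pow s (a s n) n
    omega

/-- the final position of a marker -/
theorem exists_limit (m : ℕ) : ∃ c s0, ∀ s, s0 ≤ s → a s m = c := by
  obtain ⟨s0, hs0⟩ := settle (m + 1)
  refine ⟨a s0 m, s0, fun s hs => ?_⟩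
  induction s, hs using Nat.le_induction with
  | base => rfl
  | succ s hs ih =>
    rw [a_succ]
    have h2 : sh (mv s) m = m := by
      unfold sh
      rcases hs0 s hs with h | h
      · simp [h]
      · simp [Nat.lt_of_succ_le h]
    rw [h2, ih]

/-- final positions -/
noncomputable def c (m : ℕ) : ℕ := (exists_limit m).choose

theorem c_spec (m : ℕ) : ∃ s0, ∀ s, s0 ≤ s → a s m = c m := (exists_limit m).choose_spec

theorem c_strictMono : StrictMono c := by
  intro m n hmn
  obtain ⟨s, hs⟩ := c_spec m
  obtain ⟨t, ht⟩ := c_spec n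
  rw [← hs (max s t) (le_max_left _ _), ← ht (max s t) (le_max_right _ _)]
  exact a_strictMono _ hmn

/-- the maximal set -/
def MM : Set ℕ := {x | ∃ s, ∀ m < x + 1, a s m ≠ x}

theorem compl_MM : MMᶜ = Set.range c := by
  ext x
  constructor
  · intro hx
    have hx' : ∀ s, ∃ m < x + 1, a s m = x := by
      intro s
      by_contra hcon
      push Not at hcon
      exact hx ⟨s, hcon⟩
    -- a common stage
    have hcom : ∀ N, ∃ s0, ∀ m < N, ∀ s, s0 ≤ s → a s m = c m := by
      intro N
      induction N with
      | zero => exact ⟨0, fun m hm => by omega⟩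
      | succ N ih =>
        obtain ⟨s0, h0⟩ := ih
        obtain ⟨s1, h1⟩ := c_spec N
        refine ⟨max s0 s1, fun m hm s hs => ?_⟩
        rcases Nat.lt_succ_iff_lt_or_eq.1 hm with h | rfl
        · exact h0 m h s (by omega)
        · exact h1 s (by omega)
    obtain ⟨s0, h0⟩ := hcom (x + 1)
    obtain ⟨m, hm, hmx⟩ := hx' s0
    exact ⟨m, by rw [← h0 m hm s0 le_rfl]; exact hmx⟩
  · rintro ⟨m, rfl⟩ ⟨s, hs⟩
    obtain ⟨s1, h1⟩ := c_spec m
    obtain ⟨k, hk⟩ := range_anti (le_max_left s s1) ⟨m, h1 (max s s1) (le_max_right _ _)⟩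
    refine hs k ?_ hk
    have := le_a s k
    omega

/-- the final states agree almost everywhere -/
theorem states (e : ℕ) : ∃ N, ∀ m n, N ≤ m → N ≤ n → (c m ∈ W e → c n ∈ W e) := by
  induction e using Nat.strong_induction_on with
  | _ e ih =>
    have hcom : ∀ k, k ≤ e → ∃ N, ∀ d < k, ∀ m n, N ≤ m → N ≤ n → (c m ∈ W d → c n ∈ W d) := by
      intro k
      induction k with
      | zero => intro _; exact ⟨0, fun d hd => by omega⟩
      | succ k ihk =>
        intro hk
        obtain ⟨N0, h0⟩ := ihk (by omega)
        obtain ⟨N1, h1⟩ := ih k (by omega)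
        refine ⟨max N0 N1, fun d hd m n hm hn => ?_⟩
        rcases Nat.lt_succ_iff_lt_or_eq.1 hd with h | rfl
        · exact h0 d h m n (by omega) (by omega)
        · exact h1 m n (by omega) (by omega)
    obtain ⟨N, hN⟩ := hcom e le_rfl
    by_contra hcon
    push Not at hcon
    obtain ⟨-, n, -, hn, -, hnW⟩ := hcon (max N (e + 1))
    obtain ⟨i, -, hi, -, hiW, -⟩ := hcon (n + 1)
    -- a late stage
    have hWst : ∀ (x k : ℕ), ∃ s0, ∀ d < k, ∀ s, s0 ≤ s → (x ∈ W d ↔ wst ℕ d s x = true) := by
      intro x k
      induction k with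
      | zero => exact ⟨0, fun d hd => by omega⟩
      | succ k ihk =>
        obtain ⟨s0, h0⟩ := ihk
        by_cases hx : x ∈ W k
        · obtain ⟨s1, h1⟩ := hx
          refine ⟨max s0 s1, fun d hd s hs => ?_⟩
          rcases Nat.lt_succ_iff_lt_or_eq.1 hd with h | rfl
          · exact h0 d h s (by omega)
          · exact ⟨fun _ => wst_mono (by omega) h1, fun _ => ⟨s1, h1⟩⟩
        · refine ⟨s0, fun d hd s hs => ?_⟩
          rcases Nat.lt_succ_iff_lt_or_eq.1 hd with h | rfl
          · exact h0 d h s (by omega)
          · exact ⟨fun h => (hx h).elim, fun h => ⟨s, h⟩⟩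
    obtain ⟨s1, h1⟩ := c_spec n
    obtain ⟨s2, h2⟩ := c_spec i
    obtain ⟨s3, h3⟩ := hWst (c n) (e + 1)
    obtain ⟨s4, h4⟩ := hWst (c i) (e + 1)
    obtain ⟨s5, h5⟩ := settle (Nat.pair n (i - n - 1) + 1)
    obtain ⟨s, hs⟩ : ∃ s, s = s1 + s2 + s3 + s4 + s5 + Nat.pair n (i - n - 1) + 1 := ⟨_, rfl⟩
    have hlt : st s (c n) n < st s (c i) n := by
      refine st_lt (e := e) ?_ ?_ ?_ (by omega)
      · intro d hd
        have e1 := h3 d (by omega) s (by omega)
        have e2 := h4 d (by omega) s (by omega)
        have e3 := hN d hd n i (by omega) (by omega)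
        have e4 := hN d hd i n (by omega) (by omega)
        rw [Bool.eq_iff_iff, ← e1, ← e2]
        exact ⟨e3, e4⟩
      · rw [← Bool.not_eq_true, ← h3 e (by omega) s (by omega)]
        exact hnW
      · exact (h4 e (by omega) s (by omega)).1 hiW
    have htest : test (hist s) s (Nat.pair n (i - n - 1)) = true := by
      unfold test
      rw [decide_eq_true_iff, Nat.unpair_pair]
      have e1 : n + (i - n - 1 + 1) = i := by omega
      have e2 : aa (hist s) n = c n := h1 s (by omega)
      have e3 : aa (hist s) i = c i := h2 s (by omega)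
      simp only [e1, e2, e3]
      exact hlt
    rcases h : mv s with _ | k
    · have := Fr.fnd_zero (show Fr.fnd (test (hist s) s) s = 0 from h) (Nat.pair n (i - n - 1))
        (by omega)
      rw [htest] at this
      exact absurd this (by simp)
    · obtain ⟨-, -, h6⟩ := Fr.fnd_succ (show Fr.fnd (test (hist s) s) s = k + 1 from h)
      have hk : k ≤ Nat.pair n (i - n - 1) := by
        by_contra hk
        have := h6 (Nat.pair n (i - n - 1)) (by omega)
        rw [htest] at this
        exact absurd this (by simp)
      have h7 := h5 s (by omega)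
      rw [h] at h7
      have h8 := Nat.unpair_left_le k
      rcases h7 with h7 | h7
      · omega
      · rw [Nat.add_sub_cancel] at h7
        omega

end Pool.Agent.KS6_40.QM
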