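import Pool.Agent.KS6_40.QM.Max

/-!
# The maximal set is r.e. and maximal
-/

set_option autoImplicit false

namespace Pool.Agent.KS6_40.QM

open Pool.Agent.Helper446.RE Pool.Agent.Helper446.EL

theorem computable_st : Computable fun x : (ℕ × ℕ) × ℕ => st x.1.1 x.1.2 x.2 := by
  have hw : Computable fun y : ((ℕ × ℕ) × ℕ) × (ℕ × ℕ) => wst ℕ y.2.1 y.1.1.1 y.1.1.2 :=
    wst_comp.comp (f := fun p : (ℕ × ℕ) × ℕ => wst ℕ p.1.1 p.1.2 p.2)
      (g := fun y : ((ℕ × ℕ) × ℕ) × (ℕ × ℕ) => ((y.2.1, y.1.1.1), y.1.1.2)) (by fun_prop)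
  have h := Computable.nat_rec (f := fun x : (ℕ × ℕ) × ℕ => x.2) (g := fun _ => (0 : ℕ))
    (h := fun (x : (ℕ × ℕ) × ℕ) (y : ℕ × ℕ) =>
      2 * y.2 + (bif wst ℕ y.1 x.1.1 x.1.2 then 1 else 0)) (by fun_prop) (by fun_prop) (by
        unfold Computable₂
        fun_prop)
  refine h.of_eq fun x => ?_
  obtain ⟨⟨s, x⟩, n⟩ := x
  induction n with
  | zero => rfl
  | succ n ih =>
    simp only [st]
    simp only at ih
    rw [← ih]

theorem computable_sh : Computable fun x : ℕ × ℕ => sh x.1 x.2 := by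
  have h1 : Computable fun x : ℕ × ℕ => decide (x.1 = 0) :=
    cdecide (cp_eq (by fun_prop) (by fun_prop))
  have h2 : Computable fun x : ℕ × ℕ => decide (x.2 < (x.1 - 1).unpair.1) :=
    cdecide (cp_lt (by fun_prop) (by fun_prop))
  unfold sh
  fun_prop

theorem computable_aa : Computable fun x : List ℕ × ℕ => aa x.1 x.2 := by
  unfold aa
  refine list_foldl (f := fun x : List ℕ × ℕ => x.1) (g := fun x => x.2)
    (h := fun _ y => sh y.2 y.1) (by fun_prop) (by fun_prop) ?_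
  exact computable_sh.comp (f := fun x : ℕ × ℕ => sh x.1 x.2)
    (g := fun y : (List ℕ × ℕ) × (ℕ × ℕ) => (y.2.2, y.2.1)) (by fun_prop)

theorem computable_test : Computable fun x : (List ℕ × ℕ) × ℕ => test x.1.1 x.1.2 x.2 := by
  have h1 : Computable fun x : (List ℕ × ℕ) × ℕ => aa x.1.1 x.2.unpair.1 :=
    computable_aa.comp (f := fun x : List ℕ × ℕ => aa x.1 x.2)
      (g := fun x : (List ℕ × ℕ) × ℕ => (x.1.1, x.2.unpair.1)) (by fun_prop)
  have h2 : Computable fun x : (List ℕ × ℕ) × ℕ =>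
      aa x.1.1 (x.2.unpair.1 + (x.2.unpair.2 + 1)) :=
    computable_aa.comp (f := fun x : List ℕ × ℕ => aa x.1 x.2)
      (g := fun x : (List ℕ × ℕ) × ℕ => (x.1.1, x.2.unpair.1 + (x.2.unpair.2 + 1)))
      (by fun_prop)
  have h3 : Computable fun x : (List ℕ × ℕ) × ℕ =>
      st x.1.2 (aa x.1.1 x.2.unpair.1) x.2.unpair.1 :=
    computable_st.comp (f := fun x : (ℕ × ℕ) × ℕ => st x.1.1 x.1.2 x.2)
      (g := fun x : (List ℕ × ℕ) × ℕ => ((x.1.2, aa x.1.1 x.2.unpair.1), x.2.unpair.1))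
      (by fun_prop)
  have h4 : Computable fun x : (List ℕ × ℕ) × ℕ =>
      st x.1.2 (aa x.1.1 (x.2.unpair.1 + (x.2.unpair.2 + 1))) x.2.unpair.1 :=
    computable_st.comp (f := fun x : (ℕ × ℕ) × ℕ => st x.1.1 x.1.2 x.2)
      (g := fun x : (List ℕ × ℕ) × ℕ =>
        ((x.1.2, aa x.1.1 (x.2.unpair.1 + (x.2.unpair.2 + 1))), x.2.unpair.1)) (by fun_prop)
  exact cdecide (cp_lt h3 h4)

theorem computable_hist : Computable hist := by
  have hf : Computable fun x : ℕ × (ℕ × List ℕ) => Fr.fnd (test x.2.2 x.2.1) x.2.1 := by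
    refine Fr.computable_fnd (q := fun x : ℕ × (ℕ × List ℕ) => test x.2.2 x.2.1) ?_ (by fun_prop)
    unfold Computable₂
    exact computable_test.comp (f := fun x : (List ℕ × ℕ) × ℕ => test x.1.1 x.1.2 x.2)
      (g := fun y : (ℕ × (ℕ × List ℕ)) × ℕ => ((y.1.2.2, y.1.2.1), y.2)) (by fun_prop)
  have h := Computable.nat_rec (f := fun x : ℕ => x) (g := fun _ => ([] : List ℕ))
    (h := fun (_ : ℕ) (y : ℕ × List ℕ) => Fr.fnd (test y.2 y.1) y.1 :: y.2)
    (by fun_prop) (by fun_prop) (by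
        unfold Computable₂
        fun_prop)
  refine h.of_eq fun s => ?_
  induction s with
  | zero => rfl
  | succ n ih =>
    simp only [hist]
    simp only at ih
    rw [← ih]

theorem computable_a : Computable fun x : ℕ × ℕ => a x.1 x.2 := by
  have hh : Computable fun x : ℕ × ℕ => hist x.1 :=
    computable_hist.comp (f := hist) (g := fun x : ℕ × ℕ => x.1) (by fun_prop)
  exact computable_aa.comp (f := fun x : List ℕ × ℕ => aa x.1 x.2)
    (g := fun x : ℕ × ℕ => (hist x.1, x.2)) (by fun_prop)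

theorem re_MM : Re MM := by
  unfold Re MM
  refine exN (p := fun (x : ℕ) s => ∀ m < x + 1, a s m ≠ x) ?_
  refine all_lt (p := fun (x : ℕ × ℕ) m => a x.2 m ≠ x.1) ?_ (f := fun x => x.1 + 1)
    (by fun_prop)
  refine ne ?_ (by fun_prop)
  exact computable_a.comp (f := fun x : ℕ × ℕ => a x.1 x.2)
    (g := fun y : (ℕ × ℕ) × ℕ => (y.1.2, y.2)) (by fun_prop)

/-- There is a maximal r.e. set (Friedberg). -/
theorem maxRe_MM : MaxRe MM := by
  refine ⟨re_MM, ?_, fun V hV _ => ?_⟩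
  · rw [compl_MM]
    exact Set.infinite_range_of_injective c_strictMono.injective
  · obtain ⟨e, rfl⟩ := exists_W hV
    obtain ⟨N, hN⟩ := states e
    by_cases h : ∃ m, N ≤ m ∧ c m ∈ W e
    · right
      obtain ⟨m, hm, hmW⟩ := h
      refine ((Set.finite_lt_nat N).image c).subset ?_
      intro x hx
      have hxM : x ∈ MMᶜ := fun h => hx (by solve_by_elim)
      rw [compl_MM] at hxM
      obtain ⟨n, rfl⟩ := hxM
      refine ⟨n, ?_, rfl⟩
      by_contra hn
      exact hx (hN m n hm (by simpa using hn) hmW)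
    · left
      push Not at h
      refine ((Set.finite_lt_nat N).image c).subset ?_
      rintro x ⟨hx, hxM⟩
      have hxM : x ∈ MMᶜ := hxM
      rw [compl_MM] at hxM
      obtain ⟨n, rfl⟩ := hxM
      refine ⟨n, ?_, rfl⟩
      by_contra hn
      exact h n (by simpa using hn) hx

end Pool.Agent.KS6_40.QM
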