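import Pool.Agent.KS6_40.QM.Dec
import Pool.Agent.KS6_40.QM.Fml

/-!
# Intersections of a given number of maximal sets
-/

set_option autoImplicit false

namespace Pool.Agent.KS6_40.QM

open Pool.Agent.Helper446 Pool.Agent.Helper446.RE Pool.Agent.Helper446.EL

/-- `A` is an intersection of `n` maximal sets. -/
def QMn (n : ℕ) (A : Set ℕ) : Prop :=
  ∃ M : Fin n → Set ℕ, (∀ i, MaxRe (M i)) ∧ A = ⋂ i, M i

/-- `n` is the least number of maximal sets whose intersection is `A`. -/
def Rk (n : ℕ) (A : Set ℕ) : Prop := QMn n A ∧ ∀ m < n, ¬ QMn m A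

theorem Rk.unique {n m : ℕ} {A : Set ℕ} (h : Rk n A) (h' : Rk m A) : n = m := by
  rcases Nat.lt_trichotomy n m with h1 | h1 | h1
  · exact (h'.2 n h1 h.1).elim
  · exact h1
  · exact (h.2 m h1 h'.1).elim

theorem exists_rk {n : ℕ} {A : Set ℕ} (h : QMn n A) : ∃ m, Rk m A := by
  classical
  have hex : ∃ n, QMn n A := ⟨n, h⟩
  exact ⟨Nat.find hex, Nat.find_spec hex, fun m hm => Nat.find_min hex hm⟩

/-- Different maximal sets are all needed. -/
theorem lower {n : ℕ} {A : Set ℕ} (M : Fin n → Set ℕ) (hM : ∀ i, MaxRe (M i))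
    (hA : A = ⋂ i, M i) (hd : ∀ i j, i ≠ j → (M j \ M i).Infinite) : Rk n A := by
  classical
  refine ⟨⟨M, hM, hA⟩, ?_⟩
  rintro m hm ⟨M', hM', hA'⟩
  have key : ∀ i, ∃ j, (M' j \ M i).Finite ∧ (M i \ M' j).Finite := by
    intro i
    obtain ⟨j, hj⟩ : ∃ j, ¬ ((M i ∪ M' j)ᶜ).Finite := by
      by_contra hcon
      push Not at hcon
      have h1 : (⋃ j, (M i ∪ M' j)ᶜ).Finite := Set.finite_iUnion hcon
      apply (hM i).2.1
      refine h1.subset ?_
      intro x hx
      by_contra hx2
      apply hx
      simp only [Set.mem_iUnion, not_exists, Set.notMem_compl_iff] at hx2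
      have hall : ∀ j, x ∈ M' j := fun j => (hx2 j).resolve_left hx
      have : x ∈ A := by rw [hA']; exact Set.mem_iInter.2 hall
      rw [hA] at this
      exact Set.mem_iInter.1 this i
    have hre : REPred fun k => k ∈ M i ∪ M' j := Re.union (hM i).1 (hM' j).1
    refine ⟨j, ?_, ?_⟩
    · rcases (hM i).2.2 _ hre Set.subset_union_left with h | h
      · exact h.subset fun x hx => ⟨Or.inr hx.1, hx.2⟩
      · exact (hj h).elim
    · rcases (hM' j).2.2 _ hre Set.subset_union_right with h | h
      · exact h.subset fun x hx => ⟨Or.inl hx.1, hx.2⟩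
      · exact (hj h).elim
  choose φ h1 h2 using key
  have hinj : Function.Injective φ := by
    intro i j hij
    by_contra hne
    apply hd i j hne
    refine ((h2 j).union (h1 i)).subset ?_
    rintro x ⟨hx1, hx2⟩
    by_cases hx : x ∈ M' (φ j)
    · right
      rw [hij]
      exact ⟨hx, hx2⟩
    · exact Or.inl ⟨hx1, hx⟩
  have := Fintype.card_le_of_injective φ hinj
  rw [Fintype.card_fin, Fintype.card_fin] at this
  omega

theorem qmn_zero {A : Set ℕ} : QMn 0 A ↔ A = Set.univ := by
  constructor
  · rintro ⟨M, -, rfl⟩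
    exact Set.iInter_of_empty M
  · rintro rfl
    exact ⟨fun i => i.elim0, fun i => i.elim0, (Set.iInter_of_empty _).symm⟩

theorem qmn_succ {n : ℕ} {A : Set ℕ} : QMn (n + 1) A ↔
    ∃ B M, QMn n B ∧ MaxRe M ∧ A = B ∩ M := by
  constructor
  · rintro ⟨M, hM, rfl⟩
    refine ⟨⋂ i : Fin n, M i.castSucc, M (Fin.last n), ⟨fun i => M i.castSucc, fun i => hM _, rfl⟩,
      hM _, ?_⟩
    ext x
    simp only [Set.mem_iInter, Set.mem_inter_iff]
    constructor
    · intro h; exact ⟨fun i => h _, h _⟩
    · rintro ⟨h1, h2⟩ i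
      induction i using Fin.lastCases with
      | last => exact h2
      | cast i => exact h1 i
  · rintro ⟨B, M, ⟨N, hN, rfl⟩, hM, rfl⟩
    refine ⟨Fin.snoc N M, ?_, ?_⟩
    · intro i
      induction i using Fin.lastCases with
      | last => simpa using hM
      | cast i => simpa using hN i
    · ext x
      simp only [Set.mem_iInter, Set.mem_inter_iff]
      constructor
      · rintro ⟨h1, h2⟩ i
        induction i using Fin.lastCases with
        | last => simpa using h2
        | cast i => simpa using h1 i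
      · intro h
        refine ⟨fun i => ?_, ?_⟩
        · simpa using h i.castSucc
        · simpa using h (Fin.last n)

theorem QMn.re {n : ℕ} {A : Set ℕ} (h : QMn n A) : Re A := by
  induction n generalizing A with
  | zero => rw [qmn_zero] at h; rw [h]; exact re_univ
  | succ n ih =>
    obtain ⟨B, M, h1, h2, rfl⟩ := qmn_succ.1 h
    exact (ih h1).inter h2.1

/-- quasi-maximal sets -/
theorem qm_iff_qmn {A : Set ℕ} :
    (∃ F : Set (Set ℕ), F.Finite ∧ F.Nonempty ∧ (∀ M ∈ F, MaxRe M) ∧ A = ⋂₀ F) ↔
      ∃ n, 1 ≤ n ∧ Rk n A := by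
  classical
  constructor
  · rintro ⟨F, hF, ⟨M0, hM0⟩, h, rfl⟩
    have h1 : ∀ s : Finset (Set ℕ), (∀ M ∈ s, MaxRe M) → ∃ n, QMn n (⋂₀ (s : Set (Set ℕ))) := by
      intro s
      induction s using Finset.induction_on with
      | empty => intro _; exact ⟨0, qmn_zero.2 (by simp)⟩
      | insert M s _ ih =>
        intro hs
        obtain ⟨n, hn⟩ := ih fun M' hM' => hs M' (Finset.mem_insert_of_mem hM')
        refine ⟨n + 1, qmn_succ.2 ⟨_, M, hn, hs M (Finset.mem_insert_self _ _), ?_⟩⟩
        rw [Finset.coe_insert, Set.sInter_insert, Set.inter_comm]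
    obtain ⟨n, hn⟩ := h1 hF.toFinset (by simpa using h)
    rw [Set.Finite.coe_toFinset] at hn
    obtain ⟨m, hm⟩ := exists_rk hn
    refine ⟨m, ?_, hm⟩
    by_contra hcon
    obtain rfl : m = 0 := by omega
    have := qmn_zero.1 hm.1
    have h2 : M0 = Set.univ := Set.univ_subset_iff.1 (this ▸ Set.sInter_subset_of_mem hM0)
    have h3 := (h M0 hM0).2.1
    rw [h2, Set.compl_univ] at h3
    exact h3 Set.finite_empty
  · rintro ⟨n, hn, ⟨M, hM, rfl⟩, -⟩
    refine ⟨Set.range M, Set.finite_range M, ⟨M ⟨0, by omega⟩, _, rfl⟩, ?_, ?_⟩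
    · rintro - ⟨i, rfl⟩
      exact hM i
    · rw [Set.sInter_range]

/-! ### Definability -/

theorem defMax : Def1 fun A => MaxRe A.1 := by
  intro Γ i
  refine ((DefP.all (R := fun v (u : ER) => u.1 = Set.univ → ¬ (u.1 \ (v i).1).Finite)
    ((defUniv _).imp (defSmall _ _).not)).and
    (DefP.all (R := fun v (w : ER) => v i ≤ w → ((w.1 \ (v i).1).Finite ∨
      ∃ u : ER, u.1 = Set.univ ∧ (u.1 \ w.1).Finite)) ((DefP.le _ _).imp ((defSmall _ _).or
        (DefP.ex (R := fun (v : Γ ⊕ Unit → ER) (u : ER) => u.1 = Set.univ ∧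
          (u.1 \ (v (Sum.inr ())).1).Finite) ((defUniv _).and (defSmall _ _))))))).of_iff
    fun v => ?_
  constructor
  · rintro ⟨h1, h2⟩
    refine ⟨(v i).2, ?_, fun W hW hsub => ?_⟩
    · have := h1 (mk _ re_univ) rfl
      rw [Set.compl_eq_univ_sdiff]
      exact this
    · rcases h2 (mk W hW) hsub with h | ⟨u, hu, h⟩
      · exact Or.inl h
      · right
        rw [hu, ← Set.compl_eq_univ_sdiff] at h
        exact h
  · rintro ⟨-, h1, h2⟩
    refine ⟨fun u hu hfin => h1 ?_, fun w hw => ?_⟩
    · rw [hu, ← Set.compl_eq_univ_sdiff] at hfin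
      exact hfin
    · rcases h2 w.1 w.2 hw with h | h
      · exact Or.inl h
      · right
        refine ⟨mk _ re_univ, rfl, ?_⟩
        show (Set.univ \ w.1).Finite
        rwa [← Set.compl_eq_univ_sdiff]

theorem defQMn (n : ℕ) : Def1 fun A => QMn n A.1 := by
  induction n with
  | zero =>
    intro Γ i
    exact (defUniv i).of_iff fun v => qmn_zero.symm
  | succ n ih =>
    intro Γ i
    refine (DefP.ex (R := fun v (b : ER) => QMn n b.1 ∧ ∃ m : ER, MaxRe m.1 ∧
      (v i).1 = b.1 ∩ m.1) ((ih _).and (DefP.ex (R := fun (v : Γ ⊕ Unit → ER) (m : ER) =>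
        MaxRe m.1 ∧ (v (Sum.inl i)).1 = (v (Sum.inr ())).1 ∩ m.1)
        ((defMax _).and (defInter _ _ _))))).of_iff fun v => ?_
    show _ ↔ QMn (n + 1) (v i).1
    rw [qmn_succ]
    constructor
    · rintro ⟨b, h1, m, h2, h3⟩
      exact ⟨b.1, m.1, h1, h2, h3⟩
    · rintro ⟨B, M, h1, h2, h3⟩
      exact ⟨mk B h1.re, h1, mk M h2.1, h2, h3⟩

theorem defRk (n : ℕ) : Def1 fun A => Rk n A.1 := by
  intro Γ i
  exact (defQMn n i).and (DefP.all_lt (R := fun m v => ¬ QMn m (v i).1) n
    fun m _ => (defQMn m i).not)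

/-- The class of the sets whose rank belongs to `S`. -/
def Cls (S : Set ℕ) (A : Set ℕ) : Prop := ∃ n ∈ S, Rk n A

theorem defCls_finite {S : Set ℕ} (hS : S.Finite) : Def1 fun A => Cls S A.1 := by
  induction S, hS using Set.Finite.induction_on with
  | empty =>
    intro Γ i
    exact ((defUniv i).and (defUniv i).not).of_iff fun v => by
      constructor
      · rintro ⟨h1, h2⟩; exact (h2 h1).elim
      · rintro ⟨n, hn, -⟩; exact hn.elim
  | @insert n S _ _ ih =>
    intro Γ i
    refine ((defRk n i).or (ih i)).of_iff fun v => ?_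
    constructor
    · rintro (h | ⟨m, hm, h⟩)
      · exact ⟨n, Set.mem_insert _ _, h⟩
      · exact ⟨m, Set.mem_insert_of_mem _ hm, h⟩
    · rintro ⟨m, rfl | hm, h⟩
      · exact Or.inl h
      · exact Or.inr ⟨m, hm, h⟩

theorem defCls_cofinite {S : Set ℕ} (hS : Sᶜ.Finite) : Def1 fun A => Cls S A.1 := by
  intro Γ i
  refine (((defUniv i).or (defQM i)).and (defCls_finite hS i).not).of_iff fun v => ?_
  have hall : ((v i).1 = Set.univ ∨ ∃ F : Set (Set ℕ), F.Finite ∧ F.Nonempty ∧
      (∀ M ∈ F, MaxRe M) ∧ (v i).1 = ⋂₀ F) ↔ ∃ n, Rk n (v i).1 := by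
    rw [qm_iff_qmn]
    constructor
    · rintro (h | ⟨n, -, h⟩)
      · exact ⟨0, qmn_zero.2 h, fun m hm => by omega⟩
      · exact ⟨n, h⟩
    · rintro ⟨n, h⟩
      cases n with
      | zero => exact Or.inl (qmn_zero.1 h.1)
      | succ n => exact Or.inr ⟨n + 1, by omega, h⟩
  constructor
  · rintro ⟨h1, h2⟩
    obtain ⟨n, hn⟩ := hall.1 h1
    refine ⟨n, ?_, hn⟩
    by_contra hcon
    exact h2 ⟨n, hcon, hn⟩
  · rintro ⟨n, hnS, hn⟩
    refine ⟨hall.2 ⟨n, hn⟩, ?_⟩
    rintro ⟨m, hm, hm'⟩
    rw [hm'.unique hn] at hm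
    exact hm hnS

/-! ### The sums of copies of one maximal set -/

/-- The coordinates. -/
def gg (r t : ℕ → ℕ) (n : ℕ) (o : Option (Fin (n + 1))) (x : ℕ) : ℕ :=
  o.elim (r x) fun i => t (x * (n + 1) + i.1)

theorem exists_copies {β : Type} [Finite β] (p : β → ER) :
    ∃ (f : (n : ℕ) → ((Option (Fin (n + 1)) → ER) ≃o ER)) (u₀ u₁ : Option β → ER),
      (∀ n b, f n (fun o => o.elim (u₀ (some b)) fun _ => u₁ (some b)) = p b) ∧
      ∀ n, Rk (n + 1) (f n fun o => o.elim (u₀ none) fun _ => u₁ none).1 := by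
  classical
  obtain ⟨r, t, hr, ht, hri, hti, hrt, hcov, htriv⟩ := exists_dec (fun b => (p b).1)
    fun b => (p b).2
  have hgc : ∀ n o, Computable (gg r t n o) := by
    intro n o
    cases o with
    | none => exact hr
    | some i => exact ht.comp (f := t) (g := fun x : ℕ => x * (n + 1) + i.1) (by fun_prop)
  have hinj : ∀ n o x o' x', gg r t n o x = gg r t n o' x' → o = o' ∧ x = x' := by
    intro n o x o' x' h
    cases o with
    | none =>
      cases o' with
      | none => exact ⟨rfl, hri h⟩
      | some i' => exact (hrt _ _ h).elim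
    | some i =>
      cases o' with
      | none => exact (hrt _ _ h.symm).elim
      | some i' =>
        have h1 : x * (n + 1) + i.1 = x' * (n + 1) + i'.1 := hti h
        have h2 : x = x' := by
          have e1 : (x * (n + 1) + i.1) / (n + 1) = (x' * (n + 1) + i'.1) / (n + 1) := by
            rw [h1]
          rw [Nat.mul_comm x, Nat.mul_comm x', Nat.mul_add_div (by omega),
            Nat.mul_add_div (by omega), Nat.div_eq_of_lt i.2, Nat.div_eq_of_lt i'.2] at e1
          omega
        subst h2
        exact ⟨by rw [Fin.ext (by omega : i.1 = i'.1)], rfl⟩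
  have hsurj : ∀ n z, ∃ o x, gg r t n o x = z := by
    intro n z
    rcases hcov z with ⟨x, hx⟩ | ⟨x, hx⟩
    · exact ⟨none, x, hx⟩
    · refine ⟨some ⟨x % (n + 1), Nat.mod_lt _ (by omega)⟩, x / (n + 1), ?_⟩
      show t (x / (n + 1) * (n + 1) + x % (n + 1)) = z
      rw [Nat.div_add_mod' x (n + 1)]
      exact hx
  have hf := fun n => exists_iso (gg r t n) (hgc n) (hinj n) (hsurj n)
  choose f hf using hf
  refine ⟨f, fun o => o.elim (mk _ re_univ) fun b => mk {x | r x ∈ (p b).1}
      (RE.comp (p := fun x : ℕ => x ∈ (p b).1) (p b).2 hr),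
    fun o => o.elim (mk _ re_MM) fun b => mk {x | t x ∈ (p b).1}
      (RE.comp (p := fun x : ℕ => x ∈ (p b).1) (p b).2 ht), ?_, ?_⟩
  · intro n b
    refine Subtype.ext ?_
    rw [hf]
    ext y
    constructor
    · rintro ⟨o, x, h1, rfl⟩
      cases o with
      | none => exact h1
      | some i =>
        have h2 : t x ∈ (p b).1 := h1
        rcases htriv b with h3 | h3
        · exact h3 _
        · exact (h3 x h2).elim
    · intro hy
      obtain ⟨o, x, rfl⟩ := hsurj n y
      refine ⟨o, x, ?_, rfl⟩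
      cases o with
      | none => exact hy
      | some i =>
        rcases htriv b with h3 | h3
        · exact h3 _
        · exact (h3 _ hy).elim
  · intro n
    -- the set
    obtain ⟨A, hA⟩ : ∃ A, A = (f n fun o => o.elim (mk _ re_univ) fun _ => mk _ re_MM).1 :=
      ⟨_, rfl⟩
    show Rk (n + 1) (f n fun o => o.elim (mk _ re_univ) fun _ => mk _ re_MM).1
    rw [← hA]
    have hmemA : ∀ o x, gg r t n o x ∈ A ↔ (o = none ∨ x ∈ MM) := by
      intro o x
      rw [hA, hf]
      constructor
      · rintro ⟨o', x', h1, h2⟩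
        obtain ⟨rfl, rfl⟩ := hinj n _ _ _ _ h2
        cases o' with
        | none => exact Or.inl rfl
        | some i => exact Or.inr h1
      · intro h
        refine ⟨o, x, ?_, rfl⟩
        cases o with
        | none => exact Set.mem_univ x
        | some i =>
          rcases h with h | h
          · cases h
          · exact h
    -- the maximal sets
    obtain ⟨M, hM⟩ : ∃ M : Fin (n + 1) → Set ℕ, M = fun i =>
      (f n fun o => if o = some i then mk _ re_MM else mk _ re_univ).1 := ⟨_, rfl⟩
    have hmemM : ∀ i o x, gg r t n o x ∈ M i ↔ (o ≠ some i ∨ x ∈ MM) := by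
      intro i o x
      rw [hM]
      show gg r t n o x ∈ (f n fun o => if o = some i then mk _ re_MM else mk _ re_univ).1 ↔ _
      rw [hf]
      constructor
      · rintro ⟨o', x', h1, h2⟩
        obtain ⟨rfl, rfl⟩ := hinj n _ _ _ _ h2
        by_cases ho : o' = some i
        · rw [if_pos ho] at h1
          exact Or.inr h1
        · exact Or.inl ho
      · intro h
        refine ⟨o, x, ?_, rfl⟩
        by_cases ho : o = some i
        · rw [if_pos ho]
          exact h.resolve_left fun h' => h' ho
        · rw [if_neg ho]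
          exact Set.mem_univ x
    have hgi : ∀ o, Function.Injective (gg r t n o) := fun o x y h => (hinj n _ _ _ _ h).2
    refine lower M ?_ ?_ ?_
    · intro i
      refine ⟨?_, ?_, fun V hV hMV => ?_⟩
      · rw [hM]
        exact (f n fun o => if o = some i then mk _ re_MM else mk _ re_univ).2
      · have h1 : (gg r t n (some i)) '' MMᶜ ⊆ (M i)ᶜ := by
          rintro - ⟨x, hx, rfl⟩ h
          rw [hmemM] at h
          rcases h with h | h
          · exact h rfl
          · exact hx h
        exact Set.Infinite.mono h1 (maxRe_MM.2.1.image (hgi _).injOn)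
      · have hpre : REPred fun x : ℕ => x ∈ {x | gg r t n (some i) x ∈ V} :=
          RE.comp (p := fun x : ℕ => x ∈ V) hV (hgc n (some i))
        have hsub : MM ⊆ {x | gg r t n (some i) x ∈ V} := by
          intro x hx
          exact hMV ((hmemM i _ x).2 (Or.inr hx))
        rcases maxRe_MM.2.2 _ hpre hsub with h | h
        · left
          refine (h.image (gg r t n (some i))).subset ?_
          rintro y ⟨hy, hyM⟩
          obtain ⟨o, x, rfl⟩ := hsurj n y
          rw [hmemM] at hyM
          push Not at hyM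
          obtain ⟨rfl, hx⟩ := hyM
          exact ⟨x, ⟨hy, hx⟩, rfl⟩
        · right
          refine (h.image (gg r t n (some i))).subset ?_
          intro y hy
          obtain ⟨o, x, rfl⟩ := hsurj n y
          have hyM : gg r t n o x ∉ M i := fun h' => hy (hMV h')
          rw [hmemM] at hyM
          push Not at hyM
          obtain ⟨rfl, hx⟩ := hyM
          exact ⟨x, hy, rfl⟩
    · ext y
      obtain ⟨o, x, rfl⟩ := hsurj n y
      rw [hmemA, Set.mem_iInter]
      constructor
      · intro h i
        rw [hmemM]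
        rcases h with rfl | h
        · exact Or.inl (by simp)
        · exact Or.inr h
      · intro h
        cases o with
        | none => exact Or.inl rfl
        | some i =>
          right
          have := h i
          rw [hmemM] at this
          exact this.resolve_left fun h' => h' rfl
    · intro i j hij
      have h1 : (gg r t n (some i)) '' MMᶜ ⊆ M j \ M i := by
        rintro - ⟨x, hx, rfl⟩
        refine ⟨?_, ?_⟩
        · rw [hmemM]
          left
          intro h
          exact hij (Option.some_injective _ h)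
        · rw [hmemM]
          push Not
          exact ⟨rfl, hx⟩
      exact Set.Infinite.mono h1 (maxRe_MM.2.1.image (hgi _).injOn)

end Pool.Agent.KS6_40.QM
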